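import Pool.Agent.W684.BMA.Inv
import Pool.Agent.W684.BMA.Forced

/-!
# The bounding number can be smaller than the additivity of the meager-additive ideal

* There is a ccc notion of forcing `P` which forces the combinatorial sentence `PhiFor K L`
  (`PhiHolds P K L` is its literal translation into the forcing language): the family of all
  ground model reals, which is indexed by `K`, is unbounded; all families of reals indexed by `K`
  are captured for all partitions; no family of different reals indexed by the well-ordered set
  `L` is captured for all partitions.
* If `K` is infinite and the initial segments of the well-ordered set `L` are not larger than `K`,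
  then `PhiFor K L` implies `𝔟 < add(MA)`.

The notion of forcing is a finite support iteration of length `𝔠⁺` of sigma-centred posets, with
conditions consisting of a finite approximation of a coarser partition and a real, and of
finitely many promises to capture given reals.
-/

set_option autoImplicit false

namespace Pool.Agent.Results.MP_28e4c5_lc.BoundingBelowAdd

open Pool.Agent.W684.BMA

/-- (A) There are an infinite set `K`, a well-ordered set `L` whose initial segments can be embedded
into `K`, and a ccc notion of forcing `P` all of whose conditions force the sentence
`PhiFor K L`. (B) Whenever `K` is infinite, the initial segments of the well-ordered set `L` can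
be embedded into `K`, and `PhiFor K L` holds, then the bounding number is smaller than the
additivity of the ideal of the meager-additive sets. -/
theorem result :
    (∃ (K L P : Type) (_ : LinearOrder L) (_ : WellFoundedLT L) (_ : Preorder P),
      Infinite K ∧ (∀ l : L, Nonempty (Set.Iio l ↪ K)) ∧ Nonempty P ∧
      (∀ A : Set P, (∀ p ∈ A, ∀ q ∈ A, p ≠ q → ¬ ∃ r, r ≤ p ∧ r ≤ q) → A.Countable) ∧
      ∀ p : P, p ∈ PhiHolds P K L) ∧
    (∀ (K L : Type) (_ : LinearOrder L) (_ : WellFoundedLT L), Infinite K →
      (∀ l : L, Nonempty (Set.Iio l ↪ K)) → PhiFor K L →
      bounding < additivity MASets) := by
  constructor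
  · obtain ⟨K, L, P, h1, h2, h3, hK, hL, hP, hne, h⟩ := exists_forcing
    exact ⟨K, L, P, h1, h2, h3, hK, hL, hne, hP, h⟩
  · intro K L _ _ _ hL h
    exact bounding_lt hL h

end Pool.Agent.Results.MP_28e4c5_lc.BoundingBelowAdd
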